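import Pool.Agent.Hhelper96.UB.FE.Defs

/-!
The quadratic form of the Hamiltonian of a large torus against the sum of the forms of the
Hamiltonians of disjoint blocks, each closed up to a smaller torus.
-/

set_option autoImplicit false
set_option linter.unusedSectionVars false

open scoped BigOperators Topology ComplexOrder
open Matrix

namespace Pool.Agent.Hhelper96.PEPS

/-- sums over two index sets which agree on a common part -/
theorem abs_sum_sub_sum_image_le {A Q : Type} [Fintype A] [DecidableEq A] [Fintype Q]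
    {e : Q → A} (he : Function.Injective e) {F : A → ℝ} {C : ℝ} (hF : ∀ x, |F x| ≤ C) :
    |∑ x, F x - ∑ q, F (e q)| ≤ C * ((Fintype.card A : ℝ) - Fintype.card Q) := by
  classical
  have h1 : ∑ q, F (e q) = ∑ x ∈ Finset.univ.image e, F x := by
    rw [Finset.sum_image (fun x _ y _ h => he h)]
  have h2 : ∑ x, F x - ∑ q, F (e q) = ∑ x ∈ (Finset.univ.image e)ᶜ, F x := by
    rw [h1, sub_eq_iff_eq_add, add_comm, Finset.sum_add_sum_compl]
  rw [h2]
  refine (Finset.abs_sum_le_sum_abs _ _).trans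
    ((Finset.sum_le_card_nsmul _ _ C (fun x _ => hF x)).trans ?_)
  rw [nsmul_eq_mul, Finset.card_compl, Finset.card_image_of_injective _ he, Finset.card_univ,
    Nat.cast_sub (Fintype.card_le_of_injective e he)]
  exact le_of_eq (mul_comm _ _)

theorem abs_sum_sub_sum_le {A B Q : Type} [Fintype A] [DecidableEq A] [Fintype B] [DecidableEq B]
    [Fintype Q] {e₁ : Q → A} {e₂ : Q → B} (h₁ : Function.Injective e₁)
    (h₂ : Function.Injective e₂) {F : A → ℝ} {G : B → ℝ} (hFG : ∀ q, F (e₁ q) = G (e₂ q)) {C : ℝ}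
    (hF : ∀ x, |F x| ≤ C) (hG : ∀ y, |G y| ≤ C) :
    |∑ x, F x - ∑ y, G y| ≤ C * (((Fintype.card A : ℝ) - Fintype.card Q) +
      ((Fintype.card B : ℝ) - Fintype.card Q)) := by
  have h3 := abs_sum_sub_sum_image_le h₁ hF
  have h4 := abs_sum_sub_sum_image_le h₂ hG
  have h5 : ∑ q, F (e₁ q) = ∑ q, G (e₂ q) := Finset.sum_congr rfl (fun q _ => hFG q)
  rw [h5] at h3
  rw [abs_le] at h3 h4 ⊢
  constructor
  · linarith [h3.1, h4.2]
  · linarith [h3.2, h4.1]

section

variable {S T : Type} [Fintype S] [DecidableEq S] [Fintype T] [DecidableEq T] {d : ℕ}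

open Classical in
/-- the partial trace of a rank one operator, also for maps `κ` which are not injective -/
theorem ptrace_outer_any (κ : T → S) (χ : (S → Fin d) → ℂ) :
    (ptrace κ (outer χ)).PosSemidef ∧ (ptrace κ (outer χ)).trace = ((sqn χ : ℝ) : ℂ) := by
  constructor
  · have h : ptrace κ (outer χ) = ∑ t : {u // ¬ u ∈ Set.range κ} → Fin d,
        Matrix.vecMulVec (fun a => ∑ s : S → Fin d,
            if s ∘ κ = a ∧ (fun u : {u // ¬ u ∈ Set.range κ} => s u.1) = t then χ s else 0)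
          (star (fun a => ∑ s : S → Fin d,
            if s ∘ κ = a ∧ (fun u : {u // ¬ u ∈ Set.range κ} => s u.1) = t then χ s else 0)) := by
      ext a b
      rw [Matrix.sum_apply]
      simp only [Matrix.vecMulVec_apply, Pi.star_apply, star_sum]
      simp_rw [Finset.sum_mul_sum]
      rw [Finset.sum_comm]
      unfold ptrace
      refine Finset.sum_congr rfl (fun s _ => ?_)
      rw [Finset.sum_comm]
      refine Finset.sum_congr rfl (fun s' _ => ?_)
      rw [Finset.sum_eq_single (fun u : {u // ¬ u ∈ Set.range κ} => s u.1)]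
      · by_cases h1 : s ∘ κ = a ∧ s' ∘ κ = b ∧ ∀ u, (∀ t, κ t ≠ u) → s u = s' u
        · have h2 : (fun u : {u // ¬ u ∈ Set.range κ} => s' u.1) = fun u => s u.1 := by
            funext u
            exact (h1.2.2 u.1 (fun t ht => u.2 ⟨t, ht⟩)).symm
          rw [if_pos h1, if_pos ⟨h1.1, rfl⟩, if_pos ⟨h1.2.1, h2⟩]
          rfl
        · rw [if_neg h1]
          by_cases h3 : s ∘ κ = a ∧ (fun u : {u // ¬ u ∈ Set.range κ} => s u.1) = fun u => s u.1
          · rw [if_neg (c := s' ∘ κ = b ∧ _), star_zero, mul_zero]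
            intro h4
            apply h1
            refine ⟨h3.1, h4.1, ?_⟩
            intro u hu
            exact (congrFun h4.2 ⟨u, fun ⟨t, ht⟩ => hu t ht⟩).symm
          · rw [if_neg h3, zero_mul]
      · intro t _ ht
        rw [if_neg (fun h' => ht h'.2.symm), zero_mul]
      · intro h'; exact absurd (Finset.mem_univ _) h'
    rw [h]
    exact Matrix.posSemidef_sum _ (fun t _ => Matrix.posSemidef_vecMulVec_self_star _)
  · unfold Matrix.trace
    simp only [Matrix.diag_apply]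
    unfold ptrace outer sqn
    rw [Finset.sum_comm, Complex.ofReal_sum]
    refine Finset.sum_congr rfl (fun s _ => ?_)
    rw [Finset.sum_comm, Finset.sum_eq_single s, Finset.sum_eq_single (s ∘ κ)]
    · rw [if_pos ⟨rfl, rfl, fun _ _ => rfl⟩, Complex.star_def, Complex.mul_conj,
        Complex.normSq_eq_norm_sq]
    · intro a _ ha
      rw [if_neg (fun h' => ha h'.1.symm)]
    · intro h'; exact absurd (Finset.mem_univ _) h'
    · intro s' _ hs'
      apply Finset.sum_eq_zero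
      intro a _
      rw [if_neg]
      rintro ⟨h1, h2, h3⟩
      apply hs'
      funext u
      by_cases hu : ∃ t, κ t = u
      · obtain ⟨t, rfl⟩ := hu
        exact congrFun (h2.trans h1.symm) t
      · push Not at hu
        exact (h3 u hu).symm
    · intro h'; exact absurd (Finset.mem_univ _) h'

/-- the bound on marginals bounds the quadratic form of a local operator -/
theorem abs_ex_opAt_le (κ : T → S)
    {g : Matrix (T → Fin d) (T → Fin d) ℂ} {c : ℝ}
    (hc : ∀ X : Matrix (T → Fin d) (T → Fin d) ℂ, X.PosSemidef → X.trace = 1 → |enf g X| ≤ c)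
    (χ : (S → Fin d) → ℂ) : |ex (opAt κ g) χ| ≤ c * sqn χ := by
  by_cases h0 : χ = 0
  · subst h0
    simp [ex, sqn]
  · have hpos : 0 < sqn χ := sqn_pos h0
    have hnc : ((sqn χ : ℝ) : ℂ) ≠ 0 := by exact_mod_cast hpos.ne'
    obtain ⟨hP0, hT0⟩ := ptrace_outer_any κ χ
    have hinv0 : (0 : ℂ) ≤ ((sqn χ : ℝ) : ℂ)⁻¹ := by
      have : ((sqn χ : ℝ) : ℂ)⁻¹ = (((sqn χ)⁻¹ : ℝ) : ℂ) := by push_cast; rfl
      rw [this, Complex.zero_le_real]
      exact inv_nonneg.2 hpos.le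
    obtain ⟨X, hX⟩ : ∃ X, X = ((sqn χ : ℝ) : ℂ)⁻¹ • ptrace κ (outer χ) := ⟨_, rfl⟩
    have hXP : X.PosSemidef := by
      rw [hX]
      exact hP0.smul hinv0
    have hXT : X.trace = 1 := by
      rw [hX, Matrix.trace_smul, hT0, smul_eq_mul, inv_mul_cancel₀ hnc]
    have hX2 : ptrace κ (outer χ) = ((sqn χ : ℝ) : ℂ) • X := by
      rw [hX, smul_smul, mul_inv_cancel₀ hnc, one_smul]
    have h2 : ex (opAt κ g) χ = sqn χ * enf g X := by
      unfold ex enf
      rw [form_opAt, hX2, Matrix.smul_mul, Matrix.trace_smul, smul_eq_mul, Complex.re_ofReal_mul]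
    rw [h2, abs_mul, abs_of_pos hpos, mul_comm]
    exact mul_le_mul_of_nonneg_right (hc _ hXP hXT) hpos.le

theorem opAt_zero' (κ : T → S) : opAt κ (0 : Matrix (T → Fin d) (T → Fin d) ℂ) = 0 := by
  ext s s'
  simp [opAt]

theorem opAt_sum' {ι : Type} (κ : T → S) (s : Finset ι)
    (p : ι → Matrix (T → Fin d) (T → Fin d) ℂ) :
    opAt κ (∑ i ∈ s, p i) = ∑ i ∈ s, opAt κ (p i) := by
  classical
  induction s using Finset.induction_on with
  | empty => simp [opAt_zero']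
  | insert a s ha ih => rw [Finset.sum_insert ha, Finset.sum_insert ha, opAt_add, ih]

end

section

/-- coordinates in the large torus -/
theorem natCast_add_inj {N M k : ℕ} (hk : k * M ≤ N) {i j : Fin k} {x y : ℕ} (hx : x < M)
    (hy : y < M) (h : (((i : ℕ) * M + x : ℕ) : ZMod N) = (((j : ℕ) * M + y : ℕ) : ZMod N)) :
    i = j ∧ x = y := by
  have hb : ∀ (i : Fin k) (x : ℕ), x < M → (i : ℕ) * M + x < N := by
    intro i x hx
    have h1 : (i : ℕ) + 1 ≤ k := i.isLt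
    have h2 : ((i : ℕ) + 1) * M ≤ k * M := Nat.mul_le_mul_right _ h1
    have h3 : ((i : ℕ) + 1) * M = (i : ℕ) * M + M := by ring
    omega
  have h1 := natCast_inj_of_lt (hb i x hx) (hb j y hy) h
  have hM : 0 < M := by omega
  have h2 : (i : ℕ) = j := by
    have e1 : ((i : ℕ) * M + x) / M = i := by
      rw [mul_comm, Nat.mul_add_div hM, Nat.div_eq_of_lt hx, add_zero]
    have e2 : ((j : ℕ) * M + y) / M = j := by
      rw [mul_comm, Nat.mul_add_div hM, Nat.div_eq_of_lt hy, add_zero]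
    rw [← e1, ← e2, h1]
  refine ⟨Fin.ext h2, ?_⟩
  rw [h2] at h1
  omega

/-- T2b (the blocks are disjoint) -/
theorem blkE_inj {N M k : ℕ} [NeZero M] (hk : k * M ≤ N) :
    Function.Injective (fun q : (Fin k × Fin k) × Site M => blkE N M k q.1 q.2) := by
  rintro ⟨⟨i, j⟩, ⟨x, y⟩⟩ ⟨⟨i', j'⟩, ⟨x', y'⟩⟩ h
  have h1 := natCast_add_inj hk (ZMod.val_lt x) (ZMod.val_lt x') (congrArg Prod.fst h)
  have h2 := natCast_add_inj hk (ZMod.val_lt y) (ZMod.val_lt y') (congrArg Prod.snd h)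
  have h3 : x = x' := ZMod.val_injective M h1.2
  have h4 : y = y' := ZMod.val_injective M h2.2
  have h5 : i = i' := h1.1
  have h6 : j = j' := h2.1
  rw [h5, h6, h3, h4]

end

section

variable {d : ℕ}

/-- one coordinate of a window inside the block -/
theorem coord_block {N M r : ℕ} [NeZero M] (hrM : r ≤ M) (n x : ℕ)
    (hx : x < M + 1 - r) (a p : ℤ) (h1 : a ≤ p) (h2 : p < a + r) :
    ((n + ((((x : ℕ) : ZMod M) - (a : ZMod M)) + (p : ZMod M)).val : ℕ) : ZMod N) =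
      ((n + x : ℕ) : ZMod N) - (a : ZMod N) + (p : ZMod N) := by
  obtain ⟨q, hq⟩ : ∃ q : ℕ, p = a + q := ⟨(p - a).toNat, by omega⟩
  have hq1 : (x + q : ℕ) < M := by omega
  have e1 : (((x : ℕ) : ZMod M) - (a : ZMod M)) + (p : ZMod M) = ((x + q : ℕ) : ZMod M) := by
    rw [hq]; push_cast; ring
  rw [e1, ZMod.val_cast_of_lt hq1, hq]
  push_cast
  ring

/-- T2 (block form comparison) -/
theorem block_form {N M k r : ℕ} [NeZero N] [NeZero M] (hr : 1 ≤ r) (hrM : r ≤ M)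
    (hk : k * M ≤ N) (W : Finset (ℤ × ℤ)) (a b : ℤ)
    (hW : ∀ p ∈ W, a ≤ p.1 ∧ p.1 < a + r ∧ b ≤ p.2 ∧ p.2 < b + r)
    (g : Matrix (W → Fin d) (W → Fin d) ℂ) {c : ℝ} (hc0 : 0 ≤ c)
    (hc : ∀ X : Matrix (W → Fin d) (W → Fin d) ℂ, X.PosSemidef → X.trace = 1 → |enf g X| ≤ c)
    (χ : (Site N → Fin d) → ℂ) :
    |ex (hamiltonian N W g) χ - ∑ i : Fin k × Fin k,
        ex (opAt (blkE N M k i) (hamiltonian M W g)) χ| ≤
      c * ((N : ℝ) ^ 2 - (k * M : ℝ) ^ 2 + 4 * k ^ 2 * r * M) * sqn χ := by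
  classical
  have hblk : ∀ i : Fin k × Fin k, Function.Injective (blkE N M k i) := by
    intro i v w h
    have h' : ((i, v) : (Fin k × Fin k) × Site M) = (i, w) := blkE_inj hk h
    exact congrArg Prod.snd h'
  -- the two families
  obtain ⟨F, hF⟩ : ∃ F : Site N → ℝ, F = fun w => ex (opAt (fun p : W => place N w p) g) χ :=
    ⟨_, rfl⟩
  obtain ⟨G, hG⟩ : ∃ G : (Fin k × Fin k) × Site M → ℝ,
      G = fun q => ex (opAt (fun p : W => blkE N M k q.1 (place M q.2 p)) g) χ := ⟨_, rfl⟩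
  have hsF : ex (hamiltonian N W g) χ = ∑ w, F w := by
    unfold hamiltonian
    rw [ex_sum, hF]
    exact Finset.sum_congr rfl (fun w _ => by rw [localTerm_eq_opAt])
  have hsG : ∑ i : Fin k × Fin k, ex (opAt (blkE N M k i) (hamiltonian M W g)) χ = ∑ q, G q := by
    rw [Fintype.sum_prod_type G]
    refine Finset.sum_congr rfl (fun i _ => ?_)
    unfold hamiltonian
    rw [opAt_sum', ex_sum, hG]
    exact Finset.sum_congr rfl (fun v _ => by rw [localTerm_eq_opAt, opAt_lift (hblk i)])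
  have hFb : ∀ w, |F w| ≤ c * sqn χ := by
    intro w
    rw [hF]
    exact abs_ex_opAt_le _ hc χ
  have hGb : ∀ q, |G q| ≤ c * sqn χ := by
    intro q
    rw [hG]
    exact abs_ex_opAt_le _ hc χ
  -- the common part
  obtain ⟨e₁, he₁⟩ : ∃ e₁ : (Fin k × Fin k) × (Fin (M + 1 - r) × Fin (M + 1 - r)) → Site N,
      e₁ = fun q => ((((q.1.1 : ℕ) * M + (q.2.1 : ℕ) : ℕ) : ZMod N) - (a : ZMod N),
        (((q.1.2 : ℕ) * M + (q.2.2 : ℕ) : ℕ) : ZMod N) - (b : ZMod N)) := ⟨_, rfl⟩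
  obtain ⟨e₂, he₂⟩ : ∃ e₂ : (Fin k × Fin k) × (Fin (M + 1 - r) × Fin (M + 1 - r)) →
      (Fin k × Fin k) × Site M,
      e₂ = fun q => (q.1, (((q.2.1 : ℕ) : ZMod M) - (a : ZMod M),
        ((q.2.2 : ℕ) : ZMod M) - (b : ZMod M))) := ⟨_, rfl⟩
  have hi₁ : Function.Injective e₁ := by
    rintro ⟨⟨i, j⟩, ⟨x, y⟩⟩ ⟨⟨i', j'⟩, ⟨x', y'⟩⟩ h
    rw [he₁] at h
    have h1 := natCast_add_inj hk (by omega : (x : ℕ) < M) (by omega : (x' : ℕ) < M)
      (sub_left_injective (congrArg Prod.fst h))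
    have h2 := natCast_add_inj hk (by omega : (y : ℕ) < M) (by omega : (y' : ℕ) < M)
      (sub_left_injective (congrArg Prod.snd h))
    have h3 : i = i' := h1.1
    have h4 : j = j' := h2.1
    rw [h3, h4, Fin.ext h1.2, Fin.ext h2.2]
  have hi₂ : Function.Injective e₂ := by
    rintro ⟨i, ⟨x, y⟩⟩ ⟨i', ⟨x', y'⟩⟩ h
    rw [he₂] at h
    have h0 : i = i' := congrArg Prod.fst h
    have hh := congrArg Prod.snd h
    have h1 := natCast_inj_of_lt (by omega : (x : ℕ) < M) (by omega : (x' : ℕ) < M)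
      (sub_left_injective (congrArg Prod.fst hh))
    have h2 := natCast_inj_of_lt (by omega : (y : ℕ) < M) (by omega : (y' : ℕ) < M)
      (sub_left_injective (congrArg Prod.snd hh))
    rw [h0, Fin.ext h1, Fin.ext h2]
  have hFG : ∀ q, F (e₁ q) = G (e₂ q) := by
    rintro ⟨⟨i, j⟩, ⟨x, y⟩⟩
    rw [hF, hG, he₁, he₂]
    have hfun : (fun p : W => place N ((((i : ℕ) * M + (x : ℕ) : ℕ) : ZMod N) - (a : ZMod N),
        (((j : ℕ) * M + (y : ℕ) : ℕ) : ZMod N) - (b : ZMod N)) p) =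
        (fun p : W => blkE N M k (i, j) (place M (((x : ℕ) : ZMod M) - (a : ZMod M),
        ((y : ℕ) : ZMod M) - (b : ZMod M)) p)) := by
      funext p
      obtain ⟨h1, h2, h3, h4⟩ := hW p p.2
      unfold place blkE
      refine Prod.ext ?_ ?_
      · exact (coord_block hrM ((i : ℕ) * M) x x.2 a p.1.1 h1 h2).symm
      · exact (coord_block hrM ((j : ℕ) * M) y y.2 b p.1.2 h3 h4).symm
    change ex (opAt (fun p : W => place N ((((i : ℕ) * M + (x : ℕ) : ℕ) : ZMod N) - (a : ZMod N),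
        (((j : ℕ) * M + (y : ℕ) : ℕ) : ZMod N) - (b : ZMod N)) p) g) χ = _
    rw [hfun]
  have hmain := abs_sum_sub_sum_le hi₁ hi₂ hFG hFb hGb
  rw [hsF, hsG]
  refine hmain.trans ?_
  have hcard1 : (Fintype.card (Site N) : ℝ) = (N : ℝ) ^ 2 := by
    rw [Fintype.card_prod, ZMod.card]; push_cast; ring
  have hcard2 : (Fintype.card ((Fin k × Fin k) × Site M) : ℝ) = (k : ℝ) ^ 2 * (M : ℝ) ^ 2 := by
    rw [Fintype.card_prod, Fintype.card_prod, Fintype.card_prod, ZMod.card, Fintype.card_fin]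
    push_cast; ring
  have hcard3 : (Fintype.card ((Fin k × Fin k) × (Fin (M + 1 - r) × Fin (M + 1 - r))) : ℝ) =
      (k : ℝ) ^ 2 * ((M : ℝ) + 1 - r) ^ 2 := by
    rw [Fintype.card_prod, Fintype.card_prod, Fintype.card_prod, Fintype.card_fin,
      Fintype.card_fin]
    have : ((M + 1 - r : ℕ) : ℝ) = (M : ℝ) + 1 - r := by
      rw [Nat.cast_sub (by omega)]; push_cast; ring
    push_cast
    rw [this]
    ring
  rw [hcard1, hcard2, hcard3]
  have hs := sqn_nonneg χ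
  have hcs : 0 ≤ c * sqn χ := mul_nonneg hc0 hs
  have hrR : (1 : ℝ) ≤ r := by exact_mod_cast hr
  have hMR : (r : ℝ) ≤ M := by exact_mod_cast hrM
  have hkR : (0 : ℝ) ≤ (k : ℝ) ^ 2 := sq_nonneg _
  have hineq : ((N : ℝ) ^ 2 - (k : ℝ) ^ 2 * ((M : ℝ) + 1 - r) ^ 2) +
      ((k : ℝ) ^ 2 * (M : ℝ) ^ 2 - (k : ℝ) ^ 2 * ((M : ℝ) + 1 - r) ^ 2) ≤
      (N : ℝ) ^ 2 - (k * M : ℝ) ^ 2 + 4 * k ^ 2 * r * M := by
    have h1 : (M : ℝ) ^ 2 - ((M : ℝ) + 1 - r) ^ 2 ≤ 2 * r * M := by nlinarith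
    have h2 := mul_le_mul_of_nonneg_left h1 hkR
    nlinarith
  calc c * sqn χ * (((N : ℝ) ^ 2 - (k : ℝ) ^ 2 * ((M : ℝ) + 1 - r) ^ 2) +
      ((k : ℝ) ^ 2 * (M : ℝ) ^ 2 - (k : ℝ) ^ 2 * ((M : ℝ) + 1 - r) ^ 2))
      ≤ c * sqn χ * ((N : ℝ) ^ 2 - (k * M : ℝ) ^ 2 + 4 * k ^ 2 * r * M) :=
        mul_le_mul_of_nonneg_left hineq hcs
    _ = c * ((N : ℝ) ^ 2 - (k * M : ℝ) ^ 2 + 4 * k ^ 2 * r * M) * sqn χ := by ring

end

end Pool.Agent.Hhelper96.PEPS
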