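import Pool.Agent.Hhelper96.UB.FE.Defs

/-!
Product vectors of vectors on disjoint blocks: inner products and expectations.
-/

set_option autoImplicit false
set_option linter.unusedSectionVars false

open scoped BigOperators Topology ComplexOrder
open Matrix

namespace Pool.Agent.Hhelper96.PEPS

section T3
variable {ι S T : Type} [Fintype ι] [DecidableEq ι] [Fintype S] [DecidableEq S] [Fintype T]
  [DecidableEq T] {d : ℕ}

/-- sum over the configurations which are `z` outside of the images -/
theorem sum_glue (e : ι → T → S) (he : Function.Injective (fun q : ι × T => e q.1 q.2)) (z : Fin d)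
    [∀ s : S → Fin d, Decidable (∀ x, (∀ i t, e i t ≠ x) → s x = z)]
    (F : (ι → T → Fin d) → ℂ) :
    ∑ s : S → Fin d, (if ∀ x, (∀ i t, e i t ≠ x) → s x = z then F (fun i => s ∘ e i) else 0) =
      ∑ c : ι → T → Fin d, F c := by
  set κ : ι × T → S := fun q => e q.1 q.2 with hκ
  have hmem : ∀ (c : ι → T → Fin d) (i : ι),
      overwrite κ (fun _ => z) (fun q => c q.1 q.2) ∘ e i = c i := by
    intro c i
    funext t
    exact overwrite_mem he (fun _ => z) (fun q => c q.1 q.2) (i, t)
  symm
  apply Finset.sum_of_injOn (fun c : ι → T → Fin d => overwrite κ (fun _ => z) (fun q => c q.1 q.2))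
  · intro c _ c' _ h
    funext i
    rw [← hmem c i, ← hmem c' i]
    exact congrArg (fun s => s ∘ e i) h
  · intro c _; simp
  · intro s _ hs
    by_cases h : ∀ x, (∀ i t, e i t ≠ x) → s x = z
    · refine absurd ⟨fun i t => s (e i t), by simp, ?_⟩ hs
      symm
      exact eq_overwrite he (fun _ => z) s (fun u hu => (h u (fun i t => hu (i, t))).symm)
    · rw [if_neg h]
  · intro c _
    have h1 : ∀ x, (∀ i t, e i t ≠ x) →
        overwrite κ (fun _ => z) (fun q => c q.1 q.2) x = z := by
      intro x hx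
      exact overwrite_not_mem κ (fun _ => z) _ x (fun q => hx q.1 q.2)
    have h2 : (fun i => overwrite κ (fun _ => z) (fun q => c q.1 q.2) ∘ e i) = c := by
      funext i
      exact hmem c i
    show F c = if ∀ x, (∀ i t, e i t ≠ x) →
        overwrite κ (fun _ => z) (fun q => c q.1 q.2) x = z then
        F (fun i => overwrite κ (fun _ => z) (fun q => c q.1 q.2) ∘ e i) else 0
    rw [if_pos h1, h2]

/-- T3a (inner product of product vectors).  File FE/Glue.lean -/
theorem glueVec_inner (e : ι → T → S)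
    (he : Function.Injective (fun q : ι × T => e q.1 q.2)) (z : Fin d)
    (u w : ι → (T → Fin d) → ℂ) :
    star (glueVec e z u) ⬝ᵥ glueVec e z w = ∏ i, star (u i) ⬝ᵥ w i := by
  classical
  have h1 : star (glueVec e z u) ⬝ᵥ glueVec e z w =
      ∑ s : S → Fin d, (if ∀ x, (∀ i t, e i t ≠ x) → s x = z then
        (fun c : ι → T → Fin d => ∏ i, star (u i (c i)) * w i (c i)) (fun i => s ∘ e i) else 0) := by
    unfold dotProduct
    refine Finset.sum_congr rfl (fun s _ => ?_)
    rw [Pi.star_apply]
    unfold glueVec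
    by_cases h : ∀ x, (∀ i t, e i t ≠ x) → s x = z
    · simp only [if_pos h, mul_one]
      rw [star_prod, ← Finset.prod_mul_distrib]
    · simp only [if_neg h, mul_zero]
  refine (h1.trans (sum_glue e he z
    (fun c : ι → T → Fin d => ∏ i, star (u i (c i)) * w i (c i)))).trans ?_
  have h2 : ∀ i, star (u i) ⬝ᵥ w i = ∑ c ∈ (Finset.univ : Finset (T → Fin d)), star (u i c) * w i c := by
    intro i
    rfl
  simp only [h2]
  rw [Finset.prod_univ_sum, Fintype.piFinset_univ]

/-- an operator of one block maps a product vector to a product vector -/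
theorem opAt_glueVec (e : ι → T → S)
    (he : Function.Injective (fun q : ι × T => e q.1 q.2)) (z : Fin d)
    (u : ι → (T → Fin d) → ℂ) (i : ι) (p : Matrix (T → Fin d) (T → Fin d) ℂ) :
    (opAt (e i) p).mulVec (glueVec e z u) = glueVec e z (Function.update u i (p.mulVec (u i))) := by
  classical
  have hi : Function.Injective (e i) := by
    intro t t' h
    have h2 : (i, t) = (i, t') := he h
    exact (Prod.ext_iff.1 h2).2
  funext s
  have h0 : (opAt (e i) p).mulVec (glueVec e z u) s =
      ∑ s', opAt (e i) p s s' * glueVec e z u s' := rfl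
  rw [h0, sum_opAt hi]
  unfold glueVec
  have hoth : ∀ (c : T → Fin d) (j : ι), j ≠ i → overwrite (e i) s c ∘ e j = s ∘ e j := by
    intro c j hj
    funext t
    refine overwrite_not_mem (e i) s c (e j t) (fun t' h => hj ?_)
    have h2 : (i, t') = (j, t) := he h
    exact (Prod.ext_iff.1 h2).1.symm
  have hcond : ∀ c : T → Fin d, (∀ x, (∀ i t, e i t ≠ x) → overwrite (e i) s c x = z) ↔
      (∀ x, (∀ i t, e i t ≠ x) → s x = z) := by
    intro c
    refine forall_congr' fun x => forall_congr' fun hx => ?_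
    rw [overwrite_not_mem (e i) s c x (hx i)]
  have hprod : ∀ c : T → Fin d, ∏ j, u j (overwrite (e i) s c ∘ e j) =
      u i c * ∏ j ∈ Finset.univ.erase i, u j (s ∘ e j) := by
    intro c
    rw [← Finset.mul_prod_erase Finset.univ (fun j => u j (overwrite (e i) s c ∘ e j))
      (Finset.mem_univ i), overwrite_comp hi]
    congr 1
    refine Finset.prod_congr rfl (fun j hj => ?_)
    rw [hoth c j (Finset.ne_of_mem_erase hj)]
  have hprod2 : ∏ j, (Function.update u i (p.mulVec (u i))) j (s ∘ e j) =
      (p.mulVec (u i)) (s ∘ e i) * ∏ j ∈ Finset.univ.erase i, u j (s ∘ e j) := by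
    rw [← Finset.mul_prod_erase Finset.univ
      (fun j => (Function.update u i (p.mulVec (u i))) j (s ∘ e j)) (Finset.mem_univ i),
      Function.update_self]
    congr 1
    refine Finset.prod_congr rfl (fun j hj => ?_)
    rw [Function.update_of_ne (Finset.ne_of_mem_erase hj)]
  rw [hprod2]
  have h3 : (p.mulVec (u i)) (s ∘ e i) = ∑ c, p (s ∘ e i) c * u i c := rfl
  rw [h3, Finset.sum_mul, Finset.sum_mul]
  refine Finset.sum_congr rfl (fun c _ => ?_)
  rw [hprod c]
  by_cases h : ∀ x, (∀ i t, e i t ≠ x) → s x = z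
  · rw [if_pos h, if_pos ((hcond c).2 h)]
    ring
  · rw [if_neg h, if_neg (fun h' => h ((hcond c).1 h'))]
    ring

/-- T3b (expectation of an operator of one block).  File FE/Glue.lean -/
theorem ex_glueVec (e : ι → T → S)
    (he : Function.Injective (fun q : ι × T => e q.1 q.2)) (z : Fin d)
    (u : ι → (T → Fin d) → ℂ) (hu : ∀ i, sqn (u i) = 1) (i : ι)
    (p : Matrix (T → Fin d) (T → Fin d) ℂ) :
    ex (opAt (e i) p) (glueVec e z u) = ex p (u i) := by
  classical
  unfold ex
  rw [opAt_glueVec e he z u i p, glueVec_inner e he z]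
  rw [← Finset.mul_prod_erase Finset.univ
    (fun j => star (u j) ⬝ᵥ (Function.update u i (p.mulVec (u i))) j) (Finset.mem_univ i)]
  have h1 : ∏ j ∈ Finset.univ.erase i, star (u j) ⬝ᵥ (Function.update u i (p.mulVec (u i))) j = 1 := by
    refine Finset.prod_eq_one (fun j hj => ?_)
    rw [Function.update_of_ne (Finset.ne_of_mem_erase hj), star_dot_self, hu j]
    simp
  rw [h1, mul_one, Function.update_self]

/-- averaging over the configurations of a window -/
theorem sum_overwriteC {κ : T → S} (hκ : Function.Injective κ) (F : (S → Fin d) → ℂ) :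
    ∑ s : S → Fin d, ∑ c : T → Fin d, F (overwrite κ s c) =
      (Fintype.card (T → Fin d) : ℂ) * ∑ s, F s := by
  classical
  let f : (S → Fin d) × (T → Fin d) → (S → Fin d) × (T → Fin d) :=
    fun q => (overwrite κ q.1 q.2, q.1 ∘ κ)
  have hf : Function.Involutive f := by
    rintro ⟨s, c⟩
    have h1 : overwrite κ (overwrite κ s c) (s ∘ κ) = s := by
      symm
      refine eq_overwrite hκ (overwrite κ s c) s (fun u hu => ?_)
      rw [overwrite_not_mem κ s c u hu]
    have h2 : overwrite κ s c ∘ κ = c := overwrite_comp hκ s c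
    show (overwrite κ (overwrite κ s c) (s ∘ κ), overwrite κ s c ∘ κ) = (s, c)
    rw [h1, h2]
  have h1 : ∑ s : S → Fin d, ∑ c : T → Fin d, F (overwrite κ s c) =
      ∑ q : (S → Fin d) × (T → Fin d), F (f q).1 := by
    rw [Fintype.sum_prod_type]
  have h2 : ∑ q : (S → Fin d) × (T → Fin d), F (f q).1 =
      ∑ q : (S → Fin d) × (T → Fin d), F q.1 :=
    Equiv.sum_comp (Function.Involutive.toPerm f hf) (fun q => F q.1)
  rw [h1, h2, Fintype.sum_prod_type]
  simp only [Finset.sum_const, Finset.card_univ, nsmul_eq_mul]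
  rw [Finset.mul_sum]

theorem overwrite_overwrite {κ : T → S} (hκ : Function.Injective κ) (s : S → Fin d)
    (c c' : T → Fin d) : overwrite κ (overwrite κ s c) c' = overwrite κ s c' := by
  funext u
  by_cases hu : ∃ t, κ t = u
  · obtain ⟨t, rfl⟩ := hu
    rw [overwrite_mem hκ, overwrite_mem hκ]
  · push Not at hu
    rw [overwrite_not_mem κ _ _ u hu, overwrite_not_mem κ _ _ u hu, overwrite_not_mem κ _ _ u hu]

theorem ex_opAt_nonneg {κ : T → S} (hκ : Function.Injective κ)
    {q : Matrix (T → Fin d) (T → Fin d) ℂ} (hq : ∀ φ, 0 ≤ ex q φ) (χ : (S → Fin d) → ℂ) :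
    0 ≤ ex (opAt κ q) χ := by
  classical
  set F : (S → Fin d) → ℂ := fun s => star (χ s) * ∑ c, q (s ∘ κ) c * χ (overwrite κ s c) with hF
  have h1 : star χ ⬝ᵥ (opAt κ q).mulVec χ = ∑ s, F s := by
    unfold dotProduct
    refine Finset.sum_congr rfl (fun s _ => ?_)
    have h0 : (opAt κ q).mulVec χ s = ∑ s', opAt κ q s s' * χ s' := rfl
    rw [h0, sum_opAt hκ, Pi.star_apply]
  have h2 : ∀ s : S → Fin d, ∑ c : T → Fin d, F (overwrite κ s c) =
      star (fun c => χ (overwrite κ s c)) ⬝ᵥ q.mulVec (fun c => χ (overwrite κ s c)) := by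
    intro s
    unfold dotProduct
    refine Finset.sum_congr rfl (fun c _ => ?_)
    rw [hF]
    simp only
    rw [overwrite_comp hκ, Pi.star_apply]
    congr 1
    have h0 : q.mulVec (fun c => χ (overwrite κ s c)) c = ∑ c', q c c' * χ (overwrite κ s c') := rfl
    rw [h0]
    refine Finset.sum_congr rfl (fun c' _ => ?_)
    rw [overwrite_overwrite hκ]
  have h3 := sum_overwriteC hκ F
  have h4 : 0 ≤ (∑ s : S → Fin d, ∑ c : T → Fin d, F (overwrite κ s c)).re := by
    rw [Complex.re_sum]
    refine Finset.sum_nonneg (fun s _ => ?_)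
    rw [h2 s]
    exact hq (fun c => χ (overwrite κ s c))
  rw [h3] at h4
  unfold ex
  rw [h1]
  have h5 : ((Fintype.card (T → Fin d) : ℂ) * ∑ s, F s).re =
      (Fintype.card (T → Fin d) : ℝ) * (∑ s, F s).re := by
    rw [← Complex.ofReal_natCast, Complex.re_ofReal_mul]
  rw [h5] at h4
  rcases Nat.eq_zero_or_pos (Fintype.card (T → Fin d)) with h | h
  · have hS : IsEmpty (S → Fin d) := by
      refine ⟨fun s => ?_⟩
      have := Fintype.card_eq_zero_iff.1 h
      exact this.false (s ∘ κ)
    rw [Finset.univ_eq_empty, Finset.sum_empty]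
    simp
  · exact nonneg_of_mul_nonneg_right h4 (by exact_mod_cast h)

/-- T3c (lower bound for an operator of one block).  File FE/Glue.lean -/
theorem ex_opAt_ge (κ : T → S) (hκ : Function.Injective κ) {p : Matrix (T → Fin d) (T → Fin d) ℂ}
    {E : ℝ} (hE : ∀ φ, E * sqn φ ≤ ex p φ) (χ : (S → Fin d) → ℂ) :
    E * sqn χ ≤ ex (opAt κ p) χ := by
  classical
  have hone : ∀ {n : Type} [Fintype n] [DecidableEq n] (φ : n → ℂ),
      ex (1 : Matrix n n ℂ) φ = sqn φ := by
    intro n _ _ φ
    unfold ex
    rw [Matrix.one_mulVec, star_dot_self]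
    simp
  have h1 := ex_opAt_nonneg hκ (q := p + ((-E : ℝ) : ℂ) • (1 : Matrix (T → Fin d) (T → Fin d) ℂ))
    (fun φ => by
      rw [ex_add, ex_smul, hone]
      have := hE φ
      linarith) χ
  rw [opAt_add, opAt_smul, opAt_one hκ, ex_add, ex_smul, hone] at h1
  linarith

end T3

end Pool.Agent.Hhelper96.PEPS
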