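import Pool.Agent.Hhelper96.UB.FE.Peierls
import Pool.Agent.Hhelper96.UB.FE.BlockForm
import Pool.Agent.Hhelper96.UB.FE.Glue
import Pool.Agent.Hhelper96.UB.SandwichT

/-!
Free energy of a large torus and of its blocks.
-/

set_option autoImplicit false
set_option linter.unusedSectionVars false

open scoped BigOperators Topology ComplexOrder
open Matrix

namespace Pool.Agent.Hhelper96.PEPS

section eig

variable {n : Type} [Fintype n] [DecidableEq n]

theorem sqn_eq_of_dot {x : n → ℂ} (h : star x ⬝ᵥ x = 1) : sqn x = 1 := by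
  have h1 := star_dot_self x
  rw [h] at h1
  exact_mod_cast h1.symm

/-- an orthonormal eigenbasis -/
theorem exists_eigbasis [Nonempty n] {H : Matrix n n ℂ} (hH : H.IsHermitian) :
    ∃ x : n → n → ℂ, (∀ i j, star (x i) ⬝ᵥ x j = if i = j then 1 else 0) ∧
      ∀ j, ex H (x j) = hH.eigenvalues j := by
  obtain ⟨U, hU1, hU2, hspec, heig⟩ := Sw.spectral hH
  have hon : ∀ i j, star (U.mulVec (Pi.single i 1)) ⬝ᵥ U.mulVec (Pi.single j 1) =
      if i = j then (1 : ℂ) else 0 := by
    intro i j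
    rw [Matrix.star_mulVec, ← Matrix.dotProduct_mulVec, Matrix.mulVec_mulVec, hU2,
      Matrix.one_mulVec]
    have : star (Pi.single i 1 : n → ℂ) = Pi.single i 1 := by
      rw [← Pi.single_star, star_one]
    rw [this, single_dotProduct, one_mul, Pi.single_apply]
  refine ⟨fun j => U.mulVec (Pi.single j 1), hon, fun j => ?_⟩
  have h1 : sqn (U.mulVec (Pi.single j 1)) = 1 := sqn_eq_of_dot (by rw [hon, if_pos rfl])
  rw [ex_of_eigen (heig j), h1, mul_one]

end eig

section compare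

variable {d : ℕ}

theorem fe_compare (hd : 1 ≤ d) {N M k r : ℕ} [NeZero N] [NeZero M] (hr : 1 ≤ r) (hrM : r ≤ M)
    (hk : k * M ≤ N) (W : Finset (ℤ × ℤ)) (a b : ℤ)
    (hW : ∀ p ∈ W, a ≤ p.1 ∧ p.1 < a + r ∧ b ≤ p.2 ∧ p.2 < b + r)
    (g : Matrix (W → Fin d) (W → Fin d) ℂ) {c : ℝ} (hc0 : 0 ≤ c)
    (hc : ∀ X : Matrix (W → Fin d) (W → Fin d) ℂ, X.PosSemidef → X.trace = 1 → |enf g X| ≤ c)
    (hN : (hamiltonian N W g).IsHermitian) (hM : (hamiltonian M W g).IsHermitian)
    {E : ℝ} (hE : ∀ φ, E * sqn φ ≤ ex (hamiltonian M W g) φ) {β : ℝ} (hβ : 0 ≤ β)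
    {φ : (Site N → Fin d) → ℂ} (hφ : φ ≠ 0) :
    (k : ℝ) ^ 2 * (Real.log (∑ j, Real.exp (-(β * hM.eigenvalues j))) + β * E) ≤
      Real.log (∑ j, Real.exp (-(β * hN.eigenvalues j))) +
        β * (ex (hamiltonian N W g) φ / sqn φ) +
        2 * β * (c * ((N : ℝ) ^ 2 - (k * M : ℝ) ^ 2 + 4 * k ^ 2 * r * M)) := by
  classical
  obtain ⟨V, hV⟩ : ∃ V : ℝ, V = c * ((N : ℝ) ^ 2 - (k * M : ℝ) ^ 2 + 4 * k ^ 2 * r * M) := ⟨_, rfl⟩
  rw [← hV]
  have hz : Fin d := ⟨0, hd⟩
  have hinj := blkE_inj (N := N) (M := M) (k := k) hk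
  have hinj1 : ∀ i : Fin k × Fin k, Function.Injective (blkE N M k i) := by
    intro i u v huv
    have := hinj (a₁ := (i, u)) (a₂ := (i, v)) huv
    exact (Prod.ext_iff.1 this).2
  have hform := fun χ => block_form (N := N) (M := M) (k := k) hr hrM hk W a b hW g hc0 hc χ
  rw [← hV] at hform
  have hne : Nonempty (Site M → Fin d) := ⟨fun _ => hz⟩
  have hneN : Nonempty (Site N → Fin d) := ⟨fun _ => hz⟩
  obtain ⟨j₀⟩ : Nonempty (Site M → Fin d) := hne
  obtain ⟨i₀⟩ : Nonempty (Site N → Fin d) := hneN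
  have hne : Nonempty (Site M → Fin d) := ⟨j₀⟩
  have hZM : 0 < ∑ j, Real.exp (-(β * hM.eigenvalues j)) :=
    Finset.sum_pos (fun j _ => Real.exp_pos _) ⟨j₀, Finset.mem_univ _⟩
  have hZN : 0 < ∑ j, Real.exp (-(β * hN.eigenvalues j)) :=
    Finset.sum_pos (fun j _ => Real.exp_pos _) ⟨i₀, Finset.mem_univ _⟩
  have hcardF : (Finset.univ : Finset (Fin k × Fin k)).card = k ^ 2 := by
    rw [Finset.card_univ, Fintype.card_prod, Fintype.card_fin, sq]
  -- energy
  have hen : (k : ℝ) ^ 2 * E ≤ ex (hamiltonian N W g) φ / sqn φ + V := by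
    have hs := sqn_pos hφ
    have h1 := (abs_le.1 (hform φ)).1
    have h2 : (k : ℝ) ^ 2 * (E * sqn φ) ≤
        ∑ i : Fin k × Fin k, ex (opAt (blkE N M k i) (hamiltonian M W g)) φ := by
      calc (k : ℝ) ^ 2 * (E * sqn φ) = ∑ i : Fin k × Fin k, E * sqn φ := by
            rw [Finset.sum_const, hcardF, nsmul_eq_mul]
            push_cast
            ring
        _ ≤ _ := Finset.sum_le_sum (fun i _ => ex_opAt_ge _ (hinj1 i) hE φ)
    have h3 : ((k : ℝ) ^ 2 * E - V) * sqn φ ≤ ex (hamiltonian N W g) φ := by linarith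
    rw [← le_div_iff₀ hs] at h3
    linarith
  -- partition function
  have hpf : (k : ℝ) ^ 2 * Real.log (∑ j, Real.exp (-(β * hM.eigenvalues j))) ≤
      Real.log (∑ j, Real.exp (-(β * hN.eigenvalues j))) + β * V := by
    obtain ⟨x, hx1, hx2⟩ := exists_eigbasis hM
    have hxs : ∀ j, sqn (x j) = 1 := fun j => sqn_eq_of_dot (by rw [hx1, if_pos rfl])
    obtain ⟨y, hy⟩ : ∃ y : ((Fin k × Fin k) → (Site M → Fin d)) → (Site N → Fin d) → ℂ,
        y = fun J => glueVec (blkE N M k) hz (fun i => x (J i)) := ⟨_, rfl⟩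
    have hyon : ∀ I J, star (y I) ⬝ᵥ y J = if I = J then 1 else 0 := by
      intro I J
      rw [hy]
      change star (glueVec (blkE N M k) hz (fun i => x (I i))) ⬝ᵥ
        glueVec (blkE N M k) hz (fun i => x (J i)) = _
      rw [glueVec_inner _ hinj]
      rw [Finset.prod_congr rfl (fun i _ => hx1 (I i) (J i))]
      by_cases h : I = J
      · rw [if_pos h, h]
        exact Finset.prod_eq_one (fun i _ => if_pos rfl)
      · rw [if_neg h]
        obtain ⟨i, hi⟩ := Function.ne_iff.1 h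
        exact Finset.prod_eq_zero (Finset.mem_univ i) (if_neg hi)
    have hyex : ∀ J, ex (hamiltonian N W g) (y J) ≤ (∑ i, hM.eigenvalues (J i)) + V := by
      intro J
      have h1 := (abs_le.1 (hform (y J))).2
      have h2 : sqn (y J) = 1 := sqn_eq_of_dot (by rw [hyon, if_pos rfl])
      have h3 : ∀ i : Fin k × Fin k, ex (opAt (blkE N M k i) (hamiltonian M W g)) (y J) =
          hM.eigenvalues (J i) := by
        intro i
        rw [hy]
        change ex (opAt (blkE N M k i) (hamiltonian M W g))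
          (glueVec (blkE N M k) hz (fun i => x (J i))) = _
        rw [ex_glueVec _ hinj hz (fun i => x (J i)) (fun i => hxs _) i]
        exact hx2 _
      rw [h2, mul_one, Finset.sum_congr rfl (fun i _ => h3 i)] at h1
      linarith
    have h1 := peierls hN y hyon β
    have h2 : Real.exp (-(β * V)) * (∑ j, Real.exp (-(β * hM.eigenvalues j))) ^ (k ^ 2) ≤
        ∑ j, Real.exp (-(β * hN.eigenvalues j)) := by
      refine le_trans ?_ h1
      have e1 : (∑ j, Real.exp (-(β * hM.eigenvalues j))) ^ (k ^ 2) =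
          ∑ J : (Fin k × Fin k) → (Site M → Fin d), ∏ i, Real.exp (-(β * hM.eigenvalues (J i))) := by
        rw [← hcardF, ← Finset.prod_const, Finset.prod_univ_sum, Fintype.piFinset_univ]
      rw [e1, Finset.mul_sum]
      refine Finset.sum_le_sum (fun J _ => ?_)
      rw [← Real.exp_sum, ← Real.exp_add]
      apply Real.exp_le_exp.2
      have e2 := mul_le_mul_of_nonneg_left (hyex J) hβ
      rw [mul_add, Finset.mul_sum] at e2
      have e3 : ∑ i, -(β * hM.eigenvalues (J i)) = -∑ i, β * hM.eigenvalues (J i) := by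
        rw [Finset.sum_neg_distrib]
      rw [e3]
      linarith
    have h3 := Real.log_le_log (by positivity) h2
    rw [Real.log_mul (Real.exp_pos _).ne' (by positivity), Real.log_exp, Real.log_pow] at h3
    push_cast at h3
    linarith
  have h1 := mul_le_mul_of_nonneg_left hen hβ
  have h2 : (k : ℝ) ^ 2 * (Real.log (∑ j, Real.exp (-(β * hM.eigenvalues j))) + β * E) =
      (k : ℝ) ^ 2 * Real.log (∑ j, Real.exp (-(β * hM.eigenvalues j))) +
        β * ((k : ℝ) ^ 2 * E) := by ring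
  rw [h2]
  linarith

end compare

end Pool.Agent.Hhelper96.PEPS
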