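import Pool.Agent.Hhelper96.UB.FE.Compare
import Pool.Agent.Hhelper96.UB.ThermCrit

/-!
Bond dimension from the free energy of one torus, independently of its size.
-/

set_option autoImplicit false
set_option linter.unusedSectionVars false

open scoped BigOperators Topology ComplexOrder
open Matrix Filter

namespace Pool.Agent.Hhelper96.PEPS

theorem rpow_le_of_log {X ε K B β Y : ℝ} (hY : 1 ≤ Y) (hε : 0 < ε) (hε1 : ε ≤ 1)
    (hβ : 1 ≤ β) (hB : 0 ≤ B) (hX : Y ≤ X / ε ^ 4) (hX1 : 1 ≤ X)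
    (hK : K = B * (2 * Real.log X + 4)) : Y ^ (B * β) ≤ (2 / ε) ^ (K * β) := by
  have hY0 : 0 < Y := by linarith
  have h2ε : 0 < 2 / ε := by positivity
  rw [Real.rpow_def_of_pos hY0, Real.rpow_def_of_pos h2ε]
  apply Real.exp_le_exp.2
  obtain ⟨l, hl⟩ : ∃ l : ℝ, l = Real.log (2 / ε) := ⟨_, rfl⟩
  have hl2 : Real.log 2 ≤ l := by
    rw [hl]
    apply Real.log_le_log (by norm_num)
    rw [le_div_iff₀ hε]
    linarith
  have hlhalf : 1 / 2 ≤ l := by
    have := Real.log_two_gt_d9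
    linarith
  have hle : -Real.log ε ≤ l := by
    rw [hl, Real.log_div (by norm_num) hε.ne']
    have := Real.log_two_gt_d9
    linarith
  have hX0 : 0 ≤ Real.log X := Real.log_nonneg hX1
  have h1 : Real.log Y ≤ (2 * Real.log X + 4) * l := by
    have e1 : Real.log Y ≤ Real.log (X / ε ^ 4) := Real.log_le_log hY0 hX
    rw [Real.log_div (by positivity) (by positivity), Real.log_pow] at e1
    have e3 := le_two_mul_half hX0 hlhalf
    push_cast at e1
    have e4 : (2 * Real.log X + 4) * l = 2 * Real.log X * l + 4 * l := by ring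
    rw [e4]
    linarith
  rw [← hl, hK]
  have h2 := mul_le_mul_of_nonneg_right h1 (by positivity : 0 ≤ B * β)
  calc Real.log Y * (B * β) ≤ (2 * Real.log X + 4) * l * (B * β) := h2
    _ = l * (B * (2 * Real.log X + 4) * β) := by ring

section therm

variable {d : ℕ}

theorem therm_crit2 {zr on : Fin d} (hzo : zr ≠ on) {W R : Finset (ℤ × ℤ)} {r : ℕ} (hr : 1 ≤ r)
    (a b : ℤ) (hW : ∀ p ∈ W, a ≤ p.1 ∧ p.1 < a + r ∧ b ≤ p.2 ∧ p.2 < b + r)
    (hR : ∀ p ∈ R, a ≤ p.1 ∧ p.1 < a + r ∧ b ≤ p.2 ∧ p.2 < b + r)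
    (g : Matrix (W → Fin d) (W → Fin d) ℂ) (hg : g.IsHermitian)
    (ψ : ∀ n : ℕ, (Site (n + 1) → Fin d) → ℂ)
    (hψ : ∀ᶠ n in atTop, ψ n ≠ 0 ∧ (∀ w, reduced (n + 1) W w (ψ n) = reduced (n + 1) W 0 (ψ n)) ∧
      (∀ w, reduced (n + 1) R w (ψ n) = reduced (n + 1) R 0 (ψ n)))
    (hsec : ∀ x i j, SecOrdW W R g (dirM x i j) ψ) (κ : ℕ)
    (hE : LabNet d r κ) :
    ∃ B : ℝ, 1 ≤ B ∧ ∀ ε : ℝ, 0 < ε → ε ≤ 1 → ∀ (N : ℕ) [NeZero N], B / ε ^ 2 ≤ N →
      ∀ β : ℝ, 1 ≤ β → ∀ (hH : (hamiltonian N W g).IsHermitian) (φ : (Site N → Fin d) → ℂ),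
      φ ≠ 0 → Real.log (∑ j, Real.exp (-(β * hH.eigenvalues j))) +
        β * (ex (hamiltonian N W g) φ / sqn φ) ≤ β * (ε ^ 2 / B * (N : ℝ) ^ 2) →
      ∃ D : ℕ, (D : ℝ) ≤ (2 / ε) ^ (B * β) ∧
        ∃ T : Fin d → Fin D → Fin D → Fin D → Fin D → ℂ,
        (∀ᶠ n in atTop, pepsVec (n + 1) T ≠ 0) ∧
        ∀ᶠ n in atTop, ∀ v : Site (n + 1),
          traceNorm (reduced (n + 1) R v (ψ n) - reduced (n + 1) R v (pepsVec (n + 1) T)) ≤ ε := by
  classical
  have hd : 1 ≤ d := by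
    rcases Nat.eq_zero_or_pos d with h | h
    · subst h; exact zr.elim0
    · exact h
  obtain ⟨c, hc1, hgc, hcb⟩ := exists_enf_bound g
  obtain ⟨B₁, hB₁, hmain⟩ := therm_crit hzo hr a b hW hR g hg ψ hψ hsec κ hE
  have hr0 : (1 : ℝ) ≤ r := by exact_mod_cast hr
  have hc0 : 0 < c := by linarith
  obtain ⟨X, hX⟩ : ∃ X : ℝ, X = 32 * c * r * B₁ + B₁ + r := ⟨_, rfl⟩
  have hcrB : 0 ≤ 32 * c * r * B₁ := by positivity
  have hX1 : 1 ≤ X := by rw [hX]; linarith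
  obtain ⟨K, hK⟩ : ∃ K : ℝ, K = B₁ * (2 * Real.log (8 * X ^ 2) + 4) := ⟨_, rfl⟩
  have hX2 : 1 ≤ 8 * X ^ 2 := by nlinarith
  have hK0 : 0 ≤ K := by
    rw [hK]
    have : 0 ≤ Real.log (8 * X ^ 2) := Real.log_nonneg hX2
    positivity
  refine ⟨K + 8 * B₁, by linarith, ?_⟩
  intro ε hε hε1 N _ hN β hβ hH φ hφ hF
  have hε2 : 0 < ε ^ 2 := by positivity
  have hε21 : ε ^ 2 ≤ 1 := pow_le_one₀ hε.le hε1
  have hβ0 : 0 < β := by linarith
  obtain ⟨B, hB⟩ : ∃ B : ℝ, B = K + 8 * B₁ := ⟨_, rfl⟩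
  rw [← hB] at hN hF ⊢
  have hB0 : 0 < B := by rw [hB]; linarith
  have hexp : ∀ Y : ℝ, 1 ≤ Y → Y ≤ 8 * X ^ 2 / ε ^ 4 → Y ^ (B₁ * β) ≤ (2 / ε) ^ (B * β) := by
    intro Y hY hY2
    refine (rpow_le_of_log hY hε hε1 hβ (by linarith) hY2 hX2 hK).trans ?_
    apply Real.rpow_le_rpow_of_exponent_le
    · rw [le_div_iff₀ hε]; linarith
    · exact mul_le_mul_of_nonneg_right (by rw [hB]; linarith) hβ0.le
  -- the block size
  obtain ⟨M, hM⟩ : ∃ M : ℕ, M = ⌈X / ε ^ 2⌉₊ := ⟨_, rfl⟩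
  have hM1 : X / ε ^ 2 ≤ M := by rw [hM]; exact Nat.le_ceil _
  have hXM : X ≤ X / ε ^ 2 := by
    rw [le_div_iff₀ hε2]
    exact mul_le_of_le_one_right (by linarith) hε21
  have hM2 : (M : ℝ) ≤ 2 * X / ε ^ 2 := by
    have e1 := (Nat.ceil_lt_add_one (by positivity : 0 ≤ X / ε ^ 2)).le
    rw [← hM] at e1
    have e2 : 2 * X / ε ^ 2 = X / ε ^ 2 + X / ε ^ 2 := by ring
    rw [e2]
    linarith
  have hMR : (1 : ℝ) ≤ M := by linarith
  have hMpos : (0 : ℝ) < M := by linarith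
  have hMne : NeZero M := ⟨by
    rintro rfl
    simp at hMpos⟩
  have hrM : r ≤ M := by
    have : (r : ℝ) ≤ M := by
      have : (r : ℝ) ≤ X := by rw [hX]; linarith
      linarith
    exact_mod_cast this
  have hMsq : (M : ℝ) ^ 2 ≤ 4 * X ^ 2 / ε ^ 4 := by
    have e1 := pow_le_pow_left₀ hMpos.le hM2 2
    have e2 : (2 * X / ε ^ 2) ^ 2 = 4 * X ^ 2 / ε ^ 4 := by
      rw [div_pow]
      ring
    rw [e2] at e1
    exact e1
  have hε4 : 0 < ε ^ 4 := by positivity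
  have hMM : (M : ℝ) ≤ (M : ℝ) ^ 2 := by nlinarith
  rcases Nat.lt_or_ge N (M * M) with hcase | hcase
  · -- a small torus
    obtain ⟨D, hD, T, hT1, hT2⟩ := hmain ε hε hε1 N (by
      refine le_trans ?_ hN
      exact div_le_div_of_nonneg_right (by rw [hB]; linarith) hε2.le) β hβ hH φ hφ (by
      refine hF.trans ?_
      have h2 : ε ^ 2 / B ≤ ε ^ 2 / B₁ :=
        div_le_div_of_nonneg_left hε2.le (by linarith) (by rw [hB]; linarith)
      have h3 := mul_le_mul_of_nonneg_right h2 (by positivity : (0 : ℝ) ≤ (N : ℝ) ^ 2)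
      exact mul_le_mul_of_nonneg_left h3 hβ0.le)
    refine ⟨D, hD.trans (hexp _ ?_ ?_), T, hT1, hT2⟩
    · have : (1 : ℝ) ≤ N := by exact_mod_cast (NeZero.one_le : 1 ≤ N)
      linarith
    · have e1 : (N : ℝ) ≤ (M : ℝ) ^ 2 := by
        have : N ≤ M * M := hcase.le
        have e2 : (N : ℝ) ≤ ((M * M : ℕ) : ℝ) := by exact_mod_cast this
        push_cast at e2
        rw [sq]
        exact e2
      have e2 : 8 * X ^ 2 / ε ^ 4 = 2 * (4 * X ^ 2 / ε ^ 4) := by ring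
      rw [e2]
      linarith
  · -- a large torus
    obtain ⟨k, hk⟩ : ∃ k : ℕ, k = N / M := ⟨_, rfl⟩
    have hMn : 0 < M := by exact_mod_cast hMpos
    have hkM : k * M ≤ N := by rw [hk]; exact Nat.div_mul_le_self N M
    have hkN : N < (k + 1) * M := by
      rw [hk, Nat.add_mul, one_mul]
      have := Nat.mod_lt N hMn
      have := Nat.div_add_mod' N M
      omega
    have hMk : M ≤ k := by rw [hk]; exact (Nat.le_div_iff_mul_le hMn).2 hcase
    have hkR : (M : ℝ) ≤ k := by exact_mod_cast hMk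
    have hkpos : (0 : ℝ) < k := by linarith
    have hk1 : (1 : ℝ) ≤ k := by linarith
    have hMh : (hamiltonian M W g).IsHermitian := hamiltonian_isHermitian hg
    have hne : Nonempty (Site M → Fin d) := ⟨fun _ => ⟨0, hd⟩⟩
    obtain ⟨E, φM, hφM, hEeig, hE⟩ := exists_lowest hMh
    have hcomp := fe_compare hd hr hrM hkM W a b hW g hc0.le hcb hH hMh hE hβ0.le hφ
    have hEφ : ex (hamiltonian M W g) φM / sqn φM = E := by
      rw [ex_of_eigen hEeig, mul_div_assoc, div_self (sqn_pos hφM).ne', mul_one]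
    -- estimates
    have hkMR : (k : ℝ) * M ≤ N := by exact_mod_cast hkM
    have hkNR : (N : ℝ) ≤ (k + 1) * M := by exact_mod_cast hkN.le
    have hN2 : (N : ℝ) ≤ 2 * k * M := by
      have : ((k : ℝ) + 1) * M ≤ (2 * k) * M := mul_le_mul_of_nonneg_right (by linarith) hMpos.le
      linarith
    have hNpos : (0 : ℝ) ≤ N := Nat.cast_nonneg N
    have hNsq : (N : ℝ) ^ 2 ≤ k ^ 2 * (4 * M ^ 2) := by
      have e1 := pow_le_pow_left₀ hNpos hN2 2
      have e2 : (2 * (k : ℝ) * M) ^ 2 = k ^ 2 * (4 * M ^ 2) := by ring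
      linarith
    have hdiff : (N : ℝ) ^ 2 - (k * M : ℝ) ^ 2 ≤ k ^ 2 * (4 * M) := by
      have e1 : (N : ℝ) ^ 2 - (k * M : ℝ) ^ 2 = (N - k * M) * (N + k * M) := by ring
      have e2 : (N : ℝ) - k * M ≤ M := by linarith
      have e3 : (N : ℝ) + k * M ≤ 4 * k * M := by
        have : 0 ≤ (k : ℝ) * M := by positivity
        linarith
      rw [e1]
      calc ((N : ℝ) - k * M) * (N + k * M) ≤ M * (4 * k * M) :=
            mul_le_mul e2 e3 (by positivity) hMpos.le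
        _ = k * (4 * M) * M := by ring
        _ ≤ k * (4 * M) * k := mul_le_mul_of_nonneg_left hkR (by positivity)
        _ = k ^ 2 * (4 * M) := by ring
    have hV : c * ((N : ℝ) ^ 2 - (k * M : ℝ) ^ 2 + 4 * k ^ 2 * r * M) ≤
        k ^ 2 * (8 * c * r * M) := by
      have e1 : (N : ℝ) ^ 2 - (k * M : ℝ) ^ 2 + 4 * k ^ 2 * r * M ≤ k ^ 2 * (8 * r * M) := by
        have e2 : (k : ℝ) ^ 2 * (4 * M) ≤ k ^ 2 * (4 * r * M) := by
          apply mul_le_mul_of_nonneg_left _ (by positivity)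
          apply mul_le_mul_of_nonneg_right _ hMpos.le
          linarith
        have e3 : (k : ℝ) ^ 2 * (8 * r * M) = k ^ 2 * (4 * r * M) + 4 * k ^ 2 * r * M := by ring
        rw [e3]
        linarith
      calc c * ((N : ℝ) ^ 2 - (k * M : ℝ) ^ 2 + 4 * k ^ 2 * r * M) ≤ c * (k ^ 2 * (8 * r * M)) :=
            mul_le_mul_of_nonneg_left e1 hc0.le
        _ = k ^ 2 * (8 * c * r * M) := by ring
    have hcrit : Real.log (∑ j, Real.exp (-(β * hMh.eigenvalues j))) + β * E ≤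
        β * (ε ^ 2 / B₁ * (M : ℝ) ^ 2) := by
      have hk2 : (0 : ℝ) < (k : ℝ) ^ 2 := by positivity
      have e1 : (k : ℝ) ^ 2 * (Real.log (∑ j, Real.exp (-(β * hMh.eigenvalues j))) + β * E) ≤
          k ^ 2 * (β * (ε ^ 2 / B₁ * (M : ℝ) ^ 2)) := by
        refine hcomp.trans ?_
        have e2 := mul_le_mul_of_nonneg_left hV (by linarith : 0 ≤ 2 * β)
        have e3 : ε ^ 2 / B * (N : ℝ) ^ 2 ≤ ε ^ 2 / B * (k ^ 2 * (4 * M ^ 2)) :=
          mul_le_mul_of_nonneg_left hNsq (by positivity)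
        have e4 : ε ^ 2 / B ≤ ε ^ 2 / (8 * B₁) :=
          div_le_div_of_nonneg_left hε2.le (by linarith) (by rw [hB]; linarith)
        have e5 : ε ^ 2 / B * (k ^ 2 * (4 * M ^ 2)) ≤ ε ^ 2 / (8 * B₁) * (k ^ 2 * (4 * M ^ 2)) :=
          mul_le_mul_of_nonneg_right e4 (by positivity)
        have e6 := mul_le_mul_of_nonneg_left (e3.trans e5) hβ0.le
        have e7 : 32 * c * r * B₁ ≤ M * ε ^ 2 := by
          have e8 : X ≤ M * ε ^ 2 := by
            rw [div_le_iff₀ hε2] at hM1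
            exact hM1
          have e9 : 32 * c * r * B₁ ≤ X := by rw [hX]; linarith
          linarith
        have e10 : 16 * c * r * M ≤ ε ^ 2 / (2 * B₁) * (M : ℝ) ^ 2 := by
          have e11 : ε ^ 2 / (2 * B₁) * (M : ℝ) ^ 2 = (M * ε ^ 2) * M / (2 * B₁) := by ring
          rw [e11, le_div_iff₀ (by positivity)]
          calc 16 * c * r * M * (2 * B₁) = 32 * c * r * B₁ * M := by ring
            _ ≤ M * ε ^ 2 * M := mul_le_mul_of_nonneg_right e7 hMpos.le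
        have e12 := mul_le_mul_of_nonneg_left e10 (by positivity : 0 ≤ β * (k : ℝ) ^ 2)
        have e13 : (k : ℝ) ^ 2 * (β * (ε ^ 2 / B₁ * (M : ℝ) ^ 2)) =
            β * (ε ^ 2 / (8 * B₁) * (k ^ 2 * (4 * M ^ 2))) +
              β * (k : ℝ) ^ 2 * (ε ^ 2 / (2 * B₁) * (M : ℝ) ^ 2) := by
          field_simp
          ring
        rw [e13]
        have e14 : 2 * β * (k ^ 2 * (8 * c * r * M)) = β * (k : ℝ) ^ 2 * (16 * c * r * M) := by ring
        rw [e14] at e2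
        linarith
      exact le_of_mul_le_mul_left e1 hk2
    obtain ⟨D, hD, T, hT1, hT2⟩ := hmain ε hε hε1 M (by
      refine le_trans ?_ hM1
      exact div_le_div_of_nonneg_right (by rw [hX]; linarith) hε2.le) β hβ hMh φM hφM (by
      rw [hEφ]
      exact hcrit)
    refine ⟨D, hD.trans (hexp _ (by linarith) ?_), T, hT1, hT2⟩
    have e2 : 8 * X ^ 2 / ε ^ 4 = 2 * (4 * X ^ 2 / ε ^ 4) := by ring
    rw [e2]
    linarith

end therm

end Pool.Agent.Hhelper96.PEPS
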