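import Pool.Agent.Hhelper96.UB.E2M

/-!
Free energy of a large torus and of its blocks: definitions.
-/

set_option autoImplicit false
set_option linter.unusedSectionVars false

open scoped BigOperators Topology ComplexOrder
open Matrix

namespace Pool.Agent.Hhelper96.PEPS

/-- the block `i` of side `M` of the torus of side `N` -/
def blkE (N M k : ℕ) [NeZero M] (i : Fin k × Fin k) (v : Site M) : Site N :=
  (((i.1 * M + v.1.val : ℕ) : ZMod N), ((i.2 * M + v.2.val : ℕ) : ZMod N))

open Classical in
/-- product vector of the vectors `u i` on the (disjoint) images of the maps `e i`, and of the letter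
`z` elsewhere -/
noncomputable def glueVec {ι S T : Type} [Fintype ι] {d : ℕ} (e : ι → T → S) (z : Fin d)
    (u : ι → (T → Fin d) → ℂ) : (S → Fin d) → ℂ :=
  fun s => (∏ i, u i (s ∘ e i)) * (if ∀ x, (∀ i t, e i t ≠ x) → s x = z then 1 else 0)

end Pool.Agent.Hhelper96.PEPS
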