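import Pool.Agent.Hhelper96.UB.SandwichC
import Pool.Agent.Hhelper96.UB.QuasiNum
import Pool.Agent.Hhelper96.PEPS.Generic

/-!
Quasi-polynomial bounds from the thermal criterion and spectral counting at energies of the order of
the side of the torus.
-/

set_option autoImplicit false
set_option linter.unusedSectionVars false

open scoped BigOperators Topology ComplexOrder
open Matrix Filter

namespace Pool.Agent.Hhelper96.PEPS

section count

variable {n : Type} [Fintype n] [DecidableEq n] [Nonempty n]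

/-- `P` is the size, `a` the exponent, `w` the lowest energy at which the counting holds. -/
theorem count_sum_w {H : Matrix n n ℂ} (hH : H.IsHermitian) {P a w E₀ : ℝ} (hP : 2 ≤ P)
    (ha : 0 ≤ a) (hw : 1 ≤ w) (hmin : ∀ j, E₀ ≤ hH.eigenvalues j)
    (hcount : ∀ M : ℝ, w ≤ M → (eigCount H (E₀ + M) : ℝ) ≤ P ^ (a * M))
    {b : ℝ} (hb : (a + 1) * Real.log P ≤ b) :
    Real.log (∑ j, Real.exp (-b * (hH.eigenvalues j - E₀))) ≤ (a + 1) * w * Real.log P := by
  classical
  have hP0 : 0 < P := by linarith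
  have hw0 : 0 < w := by linarith
  have hlog : 0 < Real.log P := Real.log_pos (by linarith)
  have hb0 : 0 ≤ b := le_trans (by positivity) hb
  obtain ⟨f, hf⟩ : ∃ f : n → ℕ, f = fun j => ⌊(hH.eigenvalues j - E₀) / w⌋₊ := ⟨_, rfl⟩
  have hf1 : ∀ j, (f j : ℝ) * w ≤ hH.eigenvalues j - E₀ := by
    intro j
    rw [← le_div_iff₀ hw0, hf]
    exact Nat.floor_le (by have := hmin j; exact div_nonneg (by linarith) hw0.le)
  have hf2 : ∀ j, hH.eigenvalues j - E₀ ≤ (f j + 1) * w := by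
    intro j
    rw [← div_le_iff₀ hw0, hf]
    exact (Nat.lt_floor_add_one _).le
  obtain ⟨K, hK⟩ : ∃ K : ℕ, ∀ j, f j < K :=
    ⟨Finset.univ.sup f + 1, fun j => Nat.lt_succ_of_le (Finset.le_sup (Finset.mem_univ j))⟩
  have h1 : ∑ j, Real.exp (-b * (hH.eigenvalues j - E₀)) ≤
      ∑ i ∈ Finset.range K, P ^ (a * w) * (P⁻¹) ^ i := by
    calc ∑ j, Real.exp (-b * (hH.eigenvalues j - E₀))
        ≤ ∑ j, Real.exp (-b * ((f j : ℝ) * w)) := by
          refine Finset.sum_le_sum (fun j _ => Real.exp_le_exp.mpr ?_)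
          have := mul_le_mul_of_nonneg_left (hf1 j) hb0
          linarith
      _ = ∑ i ∈ Finset.range K, ∑ j ∈ Finset.univ.filter (fun j => f j = i),
            Real.exp (-b * ((f j : ℝ) * w)) :=
          (Finset.sum_fiberwise_of_maps_to (fun j _ => Finset.mem_range.mpr (hK j)) _).symm
      _ ≤ ∑ i ∈ Finset.range K, P ^ (a * w) * (P⁻¹) ^ i := by
          refine Finset.sum_le_sum (fun i _ => ?_)
          have h2 : ∑ j ∈ Finset.univ.filter (fun j => f j = i), Real.exp (-b * ((f j : ℝ) * w)) =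
              ((Finset.univ.filter (fun j => f j = i)).card : ℝ) *
                Real.exp (-b * ((i : ℝ) * w)) := by
            rw [Finset.sum_congr rfl (g := fun _ => Real.exp (-b * ((i : ℝ) * w)))
              (fun j hj => by rw [(Finset.mem_filter.mp hj).2]), Finset.sum_const, nsmul_eq_mul]
          rw [h2]
          have hi0 : (0 : ℝ) ≤ i := Nat.cast_nonneg i
          have h3 : ((Finset.univ.filter (fun j => f j = i)).card : ℝ) ≤
              P ^ (a * (((i : ℝ) + 1) * w)) := by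
            refine le_trans ?_ (hcount (((i : ℝ) + 1) * w) (by nlinarith))
            rw [eigCount_eq hH]
            refine Nat.cast_le.mpr (Finset.card_le_card (fun j hj => ?_))
            rw [Finset.mem_filter] at hj ⊢
            refine ⟨Finset.mem_univ _, ?_⟩
            have h4 := hf2 j
            rw [hj.2] at h4
            linarith
          have h4 : Real.exp (-b * ((i : ℝ) * w)) ≤ P ^ (-((a * w + 1) * (i : ℝ))) := by
            rw [Real.rpow_def_of_pos hP0]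
            refine Real.exp_le_exp.mpr ?_
            have e1 := mul_le_mul_of_nonneg_right hb (by positivity : 0 ≤ (i : ℝ) * w)
            have e2 : (a * w + 1) * (i : ℝ) ≤ (a + 1) * (i * w) := by
              have : (i : ℝ) ≤ i * w := le_mul_of_one_le_right hi0 hw
              nlinarith
            have e3 := mul_le_mul_of_nonneg_left e2 hlog.le
            linarith
          refine (mul_le_mul h3 h4 (Real.exp_pos _).le (Real.rpow_nonneg hP0.le _)).trans
            (le_of_eq ?_)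
          rw [← Real.rpow_add hP0, inv_pow, ← Real.rpow_natCast P i, ← Real.rpow_neg hP0.le,
            ← Real.rpow_add hP0]
          congr 1
          ring
  have h2 : ∑ i ∈ Finset.range K, P ^ (a * w) * (P⁻¹) ^ i ≤ P ^ (a * w) * 2 := by
    rw [← Finset.mul_sum]
    refine mul_le_mul_of_nonneg_left (geom_le_two (by positivity) ?_ K) (Real.rpow_nonneg hP0.le _)
    rw [inv_le_comm₀ hP0 (by norm_num)]
    norm_num
    linarith
  have hpos : 0 < ∑ j, Real.exp (-b * (hH.eigenvalues j - E₀)) :=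
    Finset.sum_pos (fun j _ => Real.exp_pos _) Finset.univ_nonempty
  calc Real.log (∑ j, Real.exp (-b * (hH.eigenvalues j - E₀))) ≤ Real.log (P ^ (a * w) * 2) :=
        Real.log_le_log hpos (h1.trans h2)
    _ = a * w * Real.log P + Real.log 2 := by
        rw [Real.log_mul (Real.rpow_pos_of_pos hP0 _).ne' (by norm_num), Real.log_rpow hP0]
    _ ≤ a * w * Real.log P + Real.log P := by
        have := Real.log_le_log (by norm_num) hP
        linarith
    _ ≤ (a + 1) * w * Real.log P := by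
        have := mul_le_mul_of_nonneg_right hw hlog.le
        nlinarith

end count

/-- quasi-polynomial bounds from the thermal criterion -/
theorem quasi_of_therm {d : ℕ} (hd : 1 ≤ d)
    (H : ∀ (N : ℕ) [NeZero N], Matrix (Site N → Fin d) (Site N → Fin d) ℂ)
    (hHh : ∀ (N : ℕ) [NeZero N], (H N).IsHermitian) (Q : ℕ → ℝ → Prop)
    {B : ℝ} (hB : 0 < B)
    (hth : ∀ ε : ℝ, 0 < ε → ε ≤ 1 → ∀ (N : ℕ) [NeZero N], B / ε ^ 2 ≤ N →
      ∀ β : ℝ, 1 ≤ β → ∀ (hH : (H N).IsHermitian) (φ : (Site N → Fin d) → ℂ), φ ≠ 0 →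
      Real.log (∑ j, Real.exp (-(β * hH.eigenvalues j))) + β * (ex (H N) φ / sqn φ) ≤
        β * (ε ^ 2 / B * (N : ℝ) ^ 2) → ∃ D : ℕ, (D : ℝ) ≤ (2 / ε) ^ (B * β) ∧ Q D ε)
    (α : ℝ) (hcount : ∀ᶠ n : ℕ in atTop, ∀ E : ℝ, (∀ χ, E * sqn χ ≤ ex (H (n + 1)) χ) →
      ∀ M : ℝ, ((n + 1 : ℕ) : ℝ) ≤ M →
        (eigCount (H (n + 1)) (E + M) : ℝ) ≤ ((n + 1 : ℕ) : ℝ) ^ (α * M)) :
    ∃ C : ℝ, ∀ ε : ℝ, 0 < ε → ε ≤ 1 →
      ∃ D : ℕ, (D : ℝ) ≤ Real.exp (C * Real.log (2 / ε) ^ 2) ∧ Q D ε := by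
  obtain ⟨n₀, hn₀⟩ := eventually_atTop.1 hcount
  obtain ⟨a, ha⟩ : ∃ a : ℝ, a = max α 0 := ⟨_, rfl⟩
  have ha0 : 0 ≤ a := by rw [ha]; exact le_max_right _ _
  have haα : α ≤ a := by rw [ha]; exact le_max_left _ _
  obtain ⟨X, hX⟩ : ∃ X : ℝ, X = B + n₀ + 3 := ⟨_, rfl⟩
  have hn0R : (0 : ℝ) ≤ n₀ := Nat.cast_nonneg _
  have hX1 : 1 ≤ X := by rw [hX]; linarith
  obtain ⟨cN, hcN⟩ : ∃ cN : ℝ, cN = 2 * Real.log (2 * X) + 2 := ⟨_, rfl⟩
  have hX20 : 0 ≤ Real.log (2 * X) := Real.log_nonneg (by linarith)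
  have hcN0 : 0 ≤ cN := by rw [hcN]; linarith
  refine ⟨B * ((a + 1) * cN + 2), ?_⟩
  intro ε hε hε1
  obtain ⟨l, hl⟩ : ∃ l : ℝ, l = Real.log (2 / ε) := ⟨_, rfl⟩
  have hl2 : Real.log 2 ≤ l := by
    rw [hl]
    apply Real.log_le_log (by norm_num)
    rw [le_div_iff₀ hε]
    linarith
  have hlhalf : 1 / 2 ≤ l := by
    have := Real.log_two_gt_d9
    linarith
  have hl0 : 0 ≤ l := by linarith
  have hle : -Real.log ε ≤ l := by
    rw [hl, Real.log_div (by norm_num) hε.ne']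
    have := Real.log_two_gt_d9
    linarith
  have hε2 : 0 < ε ^ 2 := by positivity
  have hε21 : ε ^ 2 ≤ 1 := pow_le_one₀ hε.le hε1
  obtain ⟨N, hN⟩ : ∃ N : ℕ, N = ⌈X / ε ^ 2⌉₊ := ⟨_, rfl⟩
  have hN1 : X / ε ^ 2 ≤ N := by rw [hN]; exact Nat.le_ceil _
  have hXN : X ≤ X / ε ^ 2 := by
    rw [le_div_iff₀ hε2]
    exact mul_le_of_le_one_right (by linarith) hε21
  have hN2 : (N : ℝ) ≤ 2 * X / ε ^ 2 := by
    have e1 := (Nat.ceil_lt_add_one (by positivity : 0 ≤ X / ε ^ 2)).le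
    rw [← hN] at e1
    have e2 : 2 * X / ε ^ 2 = X / ε ^ 2 + X / ε ^ 2 := by ring
    rw [e2]
    linarith
  have hN3 : (3 : ℝ) ≤ N := by rw [hX] at hXN hN1; linarith
  have hNpos : (0 : ℝ) < N := by linarith
  have hNn : n₀ + 1 ≤ N := by
    have : (n₀ : ℝ) + 1 ≤ N := by rw [hX] at hXN hN1; linarith
    exact_mod_cast this
  have hNl : Real.log N ≤ cN * l := by
    have e1 : Real.log N ≤ Real.log (2 * X / ε ^ 2) := Real.log_le_log hNpos hN2
    rw [Real.log_div (by positivity) hε2.ne', Real.log_pow] at e1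
    rw [hcN]
    push_cast at e1
    have e3 := le_two_mul_half hX20 hlhalf
    have e4 : (2 * Real.log (2 * X) + 2) * l = 2 * Real.log (2 * X) * l + 2 * l := by ring
    rw [e4]
    linarith
  have hlN0 : 0 ≤ Real.log N := Real.log_nonneg (by linarith)
  have : NeZero N := ⟨by
    rintro rfl
    simp at hNpos⟩
  obtain ⟨n, rfl⟩ : ∃ n, N = n + 1 := ⟨N - 1, by omega⟩
  have hne : Nonempty (Site (n + 1) → Fin d) := ⟨fun _ => ⟨0, hd⟩⟩
  have hHe := hHh (n + 1)
  obtain ⟨E, φ, hφ, hEeig, hE⟩ := exists_lowest hHe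
  have hEφ : ex (H (n + 1)) φ / sqn φ = E := by
    rw [ex_of_eigen hEeig, mul_div_assoc, div_self (sqn_pos hφ).ne', mul_one]
  have hmin : ∀ j, E ≤ hHe.eigenvalues j := by
    intro j
    obtain ⟨v, hv⟩ : ∃ v : (Site (n + 1) → Fin d) → ℂ, v = ⇑(hHe.eigenvectorBasis j) := ⟨_, rfl⟩
    have hv0 : v ≠ 0 := by
      intro h0
      have h1 := hHe.eigenvectorBasis.orthonormal.ne_zero j
      apply h1
      ext k
      have := congrFun (hv ▸ h0 : ⇑(hHe.eigenvectorBasis j) = 0) k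
      exact this
    have hev : (H (n + 1)).mulVec v = ((hHe.eigenvalues j : ℝ) : ℂ) • v := by
      rw [hv]
      have := hHe.mulVec_eigenvectorBasis j
      rw [this]
      rfl
    have h1 := hE v
    rw [ex_of_eigen hev] at h1
    exact le_of_mul_le_mul_right h1 (sqn_pos hv0)
  obtain ⟨β, hβd⟩ : ∃ β : ℝ, β = (a + 1) * Real.log ((n + 1 : ℕ) : ℝ) + 1 := ⟨_, rfl⟩
  have hβ1 : 1 ≤ β := by
    have : 0 ≤ (a + 1) * Real.log ((n + 1 : ℕ) : ℝ) := by positivity
    linarith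
  have hβ0 : 0 < β := by linarith
  have hcnt := count_sum_w hHe (P := ((n + 1 : ℕ) : ℝ)) (a := a) (w := ((n + 1 : ℕ) : ℝ))
    (E₀ := E) (by linarith) ha0 (by linarith) hmin (fun M hM => by
    refine (hn₀ n (by omega) E hE M hM).trans ?_
    apply Real.rpow_le_rpow_of_exponent_le (by linarith)
    exact mul_le_mul_of_nonneg_right haα (by linarith)) (b := β) (by rw [hβd]; linarith)
  have hlogZ : Real.log (∑ j, Real.exp (-(β * hHe.eigenvalues j))) + β * E ≤
      β * ((n + 1 : ℕ) : ℝ) := by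
    have e1 : ∑ j, Real.exp (-β * (hHe.eigenvalues j - E)) =
        Real.exp (β * E) * ∑ j, Real.exp (-(β * hHe.eigenvalues j)) := by
      rw [Finset.mul_sum]
      refine Finset.sum_congr rfl (fun j _ => ?_)
      rw [← Real.exp_add]
      congr 1
      ring
    have e2 : 0 < ∑ j, Real.exp (-(β * hHe.eigenvalues j)) :=
      Finset.sum_pos (fun j _ => Real.exp_pos _) Finset.univ_nonempty
    rw [e1, Real.log_mul (Real.exp_pos _).ne' e2.ne', Real.log_exp] at hcnt
    have e3 : (a + 1) * ((n + 1 : ℕ) : ℝ) * Real.log ((n + 1 : ℕ) : ℝ) ≤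
        β * ((n + 1 : ℕ) : ℝ) := by
      rw [hβd]
      have e4 : ((a + 1) * Real.log ((n + 1 : ℕ) : ℝ) + 1) * ((n + 1 : ℕ) : ℝ) =
          (a + 1) * ((n + 1 : ℕ) : ℝ) * Real.log ((n + 1 : ℕ) : ℝ) + ((n + 1 : ℕ) : ℝ) := by ring
      rw [e4]
      linarith
    linarith
  obtain ⟨D, hD, hQ⟩ := hth ε hε hε1 (n + 1) (by
    refine le_trans ?_ hN1
    exact div_le_div_of_nonneg_right (by rw [hX]; linarith) hε2.le) β hβ1 hHe φ hφ (by
    rw [hEφ]
    refine hlogZ.trans (mul_le_mul_of_nonneg_left ?_ hβ0.le)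
    have e1 : B ≤ ε ^ 2 * ((n + 1 : ℕ) : ℝ) := by
      have e2 : X ≤ ((n + 1 : ℕ) : ℝ) * ε ^ 2 := by
        rw [div_le_iff₀ hε2] at hN1
        exact hN1
      have e3 : B ≤ X := by rw [hX]; linarith
      linarith
    have e4 : ε ^ 2 / B * ((n + 1 : ℕ) : ℝ) ^ 2 =
        ε ^ 2 * ((n + 1 : ℕ) : ℝ) * ((n + 1 : ℕ) : ℝ) / B := by ring
    rw [e4, le_div_iff₀ hB]
    have := mul_le_mul_of_nonneg_right e1 hNpos.le
    linarith)
  refine ⟨D, hD.trans ?_, hQ⟩
  rw [Real.rpow_def_of_pos (by positivity), ← hl]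
  apply Real.exp_le_exp.2
  have e1 : β ≤ ((a + 1) * cN + 2) * l := by
    rw [hβd]
    have e2 := mul_le_mul_of_nonneg_left hNl (by linarith : 0 ≤ a + 1)
    have e3 : ((a + 1) * cN + 2) * l = (a + 1) * (cN * l) + 2 * l := by ring
    rw [e3]
    linarith
  have e2 := mul_le_mul_of_nonneg_left e1 (by positivity : 0 ≤ l * B)
  calc l * (B * β) = l * B * β := by ring
    _ ≤ l * B * (((a + 1) * cN + 2) * l) := e2
    _ = B * ((a + 1) * cN + 2) * l ^ 2 := by ring

end Pool.Agent.Hhelper96.PEPS
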