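import Pool.Agent.Hhelper96.UB.FE.Defs

/-!
Peierls inequality (finite dimensional).
-/

set_option autoImplicit false
set_option linter.unusedSectionVars false

open scoped BigOperators Topology ComplexOrder
open Matrix

namespace Pool.Agent.Hhelper96.PEPS

section T1
variable {n : Type} [Fintype n] [DecidableEq n]

/-- the quadratic form and the norm in the basis of eigenvectors -/
theorem form_sum_eig {H : Matrix n n ℂ} (hH : H.IsHermitian) (χ : n → ℂ) :
    ex H χ = ∑ j, hH.eigenvalues j *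
        ‖((hH.eigenvectorUnitary : Matrix n n ℂ)ᴴ.mulVec χ) j‖ ^ 2 ∧
      sqn χ = ∑ j, ‖((hH.eigenvectorUnitary : Matrix n n ℂ)ᴴ.mulVec χ) j‖ ^ 2 := by
  set U : Matrix n n ℂ := (hH.eigenvectorUnitary : Matrix n n ℂ) with hU
  have hUU : U * Uᴴ = 1 := by
    rw [← Matrix.star_eq_conjTranspose]
    exact Unitary.coe_mul_star_self hH.eigenvectorUnitary
  have hHd : H = U * diagonal (fun i => ((hH.eigenvalues i : ℝ) : ℂ)) * Uᴴ := by
    have h := hH.spectral_theorem
    rw [Unitary.conjStarAlgAut_apply] at h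
    exact h
  obtain ⟨z, hz⟩ : ∃ z : n → ℂ, z = Uᴴ.mulVec χ := ⟨_, rfl⟩
  have hzs : star z = Matrix.vecMul (star χ) U := by
    rw [hz, Matrix.star_mulVec, Matrix.conjTranspose_conjTranspose]
  rw [← hz]
  refine ⟨?_, ?_⟩
  · have h1 : star χ ⬝ᵥ H.mulVec χ = ∑ i, ((hH.eigenvalues i * ‖z i‖ ^ 2 : ℝ) : ℂ) := by
      conv_lhs => rw [hHd]
      rw [← Matrix.mulVec_mulVec, ← Matrix.mulVec_mulVec, Matrix.dotProduct_mulVec, ← hzs, ← hz]
      unfold dotProduct
      refine Finset.sum_congr rfl (fun i _ => ?_)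
      rw [Matrix.mulVec_diagonal, Pi.star_apply]
      have : star (z i) * z i = ((‖z i‖ ^ 2 : ℝ) : ℂ) := by
        rw [mul_comm, Complex.star_def, Complex.mul_conj, Complex.normSq_eq_norm_sq]
      calc star (z i) * (((hH.eigenvalues i : ℝ) : ℂ) * z i) =
          ((hH.eigenvalues i : ℝ) : ℂ) * (star (z i) * z i) := by ring
        _ = _ := by rw [this]; push_cast; ring
    unfold ex
    rw [h1, ← Complex.ofReal_sum, Complex.ofReal_re]
  · have h1 : ((sqn χ : ℝ) : ℂ) = ((sqn z : ℝ) : ℂ) := by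
      rw [← star_dot_self, ← star_dot_self, hzs, hz, ← Matrix.dotProduct_mulVec,
        Matrix.mulVec_mulVec, hUU, Matrix.one_mulVec]
    exact Complex.ofReal_injective h1

/-- Bessel inequality for vectors of functions -/
theorem bessel_vec {ι : Type} [Fintype ι] [DecidableEq ι] (x : ι → n → ℂ)
    (hx : ∀ i j, star (x i) ⬝ᵥ x j = if i = j then 1 else 0) (w : n → ℂ) :
    ∑ i, ‖star w ⬝ᵥ x i‖ ^ 2 ≤ sqn w := by
  classical
  let v : ι → EuclideanSpace ℂ n := fun i => WithLp.toLp 2 (x i)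
  have hv : Orthonormal ℂ v := by
    rw [orthonormal_iff_ite]
    intro i j
    rw [EuclideanSpace.inner_eq_star_dotProduct]
    show x j ⬝ᵥ star (x i) = _
    rw [dotProduct_comm, hx]
  have h := hv.sum_inner_products_le (WithLp.toLp 2 w : EuclideanSpace ℂ n) (s := Finset.univ)
  have h2 : ‖(WithLp.toLp 2 w : EuclideanSpace ℂ n)‖ ^ 2 = sqn w := by
    rw [EuclideanSpace.norm_sq_eq]
    rfl
  rw [h2] at h
  refine le_trans (le_of_eq (Finset.sum_congr rfl fun i _ => ?_)) h
  rw [norm_inner_symm, EuclideanSpace.inner_eq_star_dotProduct]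
  show _ = ‖x i ⬝ᵥ star w‖ ^ 2
  rw [dotProduct_comm]

/-- T1 (Peierls inequality): the sum of the Gibbs weights of the expectations in an orthonormal
system is at most the partition function. -/
theorem peierls {H : Matrix n n ℂ} (hH : H.IsHermitian) {ι : Type} [Fintype ι] [DecidableEq ι]
    (x : ι → n → ℂ) (hx : ∀ i j, star (x i) ⬝ᵥ x j = if i = j then 1 else 0) (β : ℝ) :
    ∑ i, Real.exp (-(β * ex H (x i))) ≤ ∑ j, Real.exp (-(β * hH.eigenvalues j)) := by
  classical
  obtain ⟨U, hU⟩ : ∃ U : Matrix n n ℂ, U = (hH.eigenvectorUnitary : Matrix n n ℂ) := ⟨_, rfl⟩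
  have hUU : Uᴴ * U = 1 := by
    rw [← Matrix.star_eq_conjTranspose, hU]
    exact Unitary.coe_star_mul_self hH.eigenvectorUnitary
  obtain ⟨p, hp⟩ : ∃ p : ι → n → ℝ, p = fun i j => ‖(Uᴴ.mulVec (x i)) j‖ ^ 2 := ⟨_, rfl⟩
  have hp0 : ∀ i j, 0 ≤ p i j := by
    intro i j
    rw [hp]
    positivity
  have hform : ∀ i, ex H (x i) = ∑ j, hH.eigenvalues j * p i j := by
    intro i
    have h := (form_sum_eig hH (x i)).1
    rw [← hU] at h
    rw [h, hp]
  have hone : ∀ i, ∑ j, p i j = 1 := by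
    intro i
    have h := (form_sum_eig hH (x i)).2
    rw [← hU] at h
    have h1 : ((sqn (x i) : ℝ) : ℂ) = 1 := by
      rw [← star_dot_self, hx, if_pos rfl]
    have h2 : sqn (x i) = 1 := by exact_mod_cast h1
    rw [hp]
    show ∑ j, ‖(Uᴴ.mulVec (x i)) j‖ ^ 2 = 1
    rw [← h, h2]
  have hcol : ∀ j, ∑ i, p i j ≤ 1 := by
    intro j
    have h1 : ∀ i, p i j = ‖star (fun k => U k j) ⬝ᵥ x i‖ ^ 2 := by
      intro i
      rw [hp]
      rfl
    have h2 : ((sqn (fun k => U k j) : ℝ) : ℂ) = 1 := by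
      rw [← star_dot_self]
      have h3 := congrFun (congrFun hUU j) j
      rw [Matrix.one_apply_eq] at h3
      rw [← h3]
      rfl
    have h3 : sqn (fun k => U k j) = 1 := by exact_mod_cast h2
    calc ∑ i, p i j = ∑ i, ‖star (fun k => U k j) ⬝ᵥ x i‖ ^ 2 :=
          Finset.sum_congr rfl fun i _ => h1 i
      _ ≤ sqn (fun k => U k j) := bessel_vec x hx _
      _ = 1 := h3
  have hjen : ∀ i, Real.exp (-(β * ex H (x i))) ≤
      ∑ j, p i j * Real.exp (-(β * hH.eigenvalues j)) := by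
    intro i
    have h := convexOn_exp.map_sum_le (t := Finset.univ) (w := fun j => p i j)
      (p := fun j => -(β * hH.eigenvalues j)) (fun j _ => hp0 i j) (hone i)
      (fun j _ => Set.mem_univ _)
    have he : ∑ j, p i j • (-(β * hH.eigenvalues j)) = -(β * ex H (x i)) := by
      rw [hform i, Finset.mul_sum, ← Finset.sum_neg_distrib]
      refine Finset.sum_congr rfl fun j _ => ?_
      rw [smul_eq_mul]
      ring
    rw [he] at h
    refine le_trans h (le_of_eq (Finset.sum_congr rfl fun j _ => ?_))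
    rw [smul_eq_mul]
  calc ∑ i, Real.exp (-(β * ex H (x i)))
      ≤ ∑ i, ∑ j, p i j * Real.exp (-(β * hH.eigenvalues j)) :=
        Finset.sum_le_sum fun i _ => hjen i
    _ = ∑ j, (∑ i, p i j) * Real.exp (-(β * hH.eigenvalues j)) := by
        rw [Finset.sum_comm]
        refine Finset.sum_congr rfl fun j _ => ?_
        rw [Finset.sum_mul]
    _ ≤ ∑ j, 1 * Real.exp (-(β * hH.eigenvalues j)) :=
        Finset.sum_le_sum fun j _ => mul_le_mul_of_nonneg_right (hcol j) (Real.exp_pos _).le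
    _ = ∑ j, Real.exp (-(β * hH.eigenvalues j)) := by
        simp only [one_mul]

end T1

end Pool.Agent.Hhelper96.PEPS
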